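import Mathlib

set_option autoImplicit false
open MeasureTheory ProbabilityTheory Finset Filter Topology
open scoped ENNReal

namespace Pool.Agent.H.MP_ab74d4_pr

variable {Ω : Type*} [mΩ : MeasurableSpace Ω] {P : Measure Ω} {ξ : ℕ → Ω → ℝ} {ν : Measure ℝ}

structure IID (P : Measure Ω) (ξ : ℕ → Ω → ℝ) (ν : Measure ℝ) : Prop where
  me : ∀ k, Measurable (ξ k)
  ind : iIndepFun ξ P
  law : ∀ k, P.map (ξ k) = ν

noncomputable def Z (ξ : ℕ → Ω → ℝ) (g : ℕ → UnitAddCircle → ℝ → ℝ≥0∞) (φ : UnitAddCircle → ℝ≥0∞)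
    (s : Finset ℕ) (ω : Ω) : ℝ≥0∞ := ∫⁻ z, φ z * ∏ k ∈ s, g k z (ξ k ω)

variable {g : ℕ → UnitAddCircle → ℝ → ℝ≥0∞} {φ : UnitAddCircle → ℝ≥0∞}

omit mΩ in
theorem Z_meas (m : MeasurableSpace Ω) {s : Finset ℕ} (h : ∀ k ∈ s, Measurable[m] (ξ k))
    (hg : ∀ k, Measurable (Function.uncurry (g k))) (hφ : Measurable φ) :
    Measurable[m] (Z ξ g φ s) := by
  refine Measurable.lintegral_prod_right (f := fun ω z => φ z * ∏ k ∈ s, g k z (ξ k ω)) ?_
  refine (hφ.comp measurable_snd).mul (Finset.measurable_prod _ fun k hk => ?_)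
  exact (hg k).comp (measurable_snd.prodMk ((h k hk).comp measurable_fst))

theorem IID.lint (h : IID P ξ ν) (k : ℕ) {f : ℝ → ℝ≥0∞} (hf : Measurable f) :
    ∫⁻ ω, f (ξ k ω) ∂P = ∫⁻ x, f x ∂ν := by
  rw [← h.law k, lintegral_map hf (h.me k)]

theorem IID.prod (h : IID P ξ ν) (s : Finset ℕ) {f : ℕ → ℝ → ℝ≥0∞} (hf : ∀ k, Measurable (f k)) :
    ∫⁻ ω, ∏ k ∈ s, f k (ξ k ω) ∂P = ∏ k ∈ s, ∫⁻ x, f k x ∂ν := by
  rw [lintegral_prod_eq_prod_lintegral_of_indepFun s (fun k ω => f k (ξ k ω))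
    (h.ind.comp f hf) fun k => (hf k).comp (h.me k)]
  exact prod_congr rfl fun k _ => h.lint k (hf k)

theorem IID.Z_int (h : IID P ξ ν) (hg : ∀ k, Measurable (Function.uncurry (g k)))
    (hφ : Measurable φ) (s : Finset ℕ) :
    ∫⁻ ω, Z ξ g φ s ω ∂P = ∫⁻ z, φ z * ∏ k ∈ s, ∫⁻ x, g k z x ∂ν := by
  have := h.ind.isProbabilityMeasure
  have m : ∀ k z, Measurable (g k z) := fun k z => (hg k).of_uncurry_left
  unfold Z
  rw [lintegral_lintegral_swap]
  · refine lintegral_congr fun z => ?_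
    rw [lintegral_const_mul _ (f := fun ω => ∏ k ∈ s, g k z (ξ k ω))
      (Finset.measurable_prod _ fun k _ => (m k z).comp (h.me k)), h.prod s fun k => m k z]
  · refine ((hφ.comp measurable_snd).mul (Finset.measurable_prod _ fun k hk => ?_)).aemeasurable
    exact (hg k).comp (measurable_snd.prodMk ((h.me k).comp measurable_fst))

theorem IID.Z_conv (h : IID P ξ ν) (hg : ∀ k, Measurable (Function.uncurry (g k)))
    (hφ : Measurable φ) (h1 : ∀ k z, ∫⁻ x, g k z x ∂ν ≤ 1) (h2 : ∫⁻ z, φ z ≠ ∞) :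
    ∀ᵐ ω ∂P, ∃ c, Tendsto (fun n => (Z ξ g φ (Icc 1 n) ω).toReal) atTop (𝓝 c) := by
  have := h.ind.isProbabilityMeasure
  have m : ∀ k z, Measurable (g k z) := fun k z => (hg k).of_uncurry_left
  have sm : ∀ k, StronglyMeasurable (ξ k) := fun k => (h.me k).stronglyMeasurable
  let F := Filtration.natural ξ sm
  have ad : ∀ n, ∀ k ∈ Icc 1 n, Measurable[F n] (ξ k) := fun n k hk =>
    ((Filtration.stronglyAdapted_natural sm k).mono (F.mono (mem_Icc.1 hk).2)).measurable
  have mz : ∀ n, Measurable[F n] (Z ξ g φ (Icc 1 n)) := fun n => Z_meas _ (ad n) hg hφ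
  have mz' : ∀ n, Measurable (Z ξ g φ (Icc 1 n)) := fun n => (mz n).mono (F.le n) le_rfl
  have bd : ∀ n, ∫⁻ ω, Z ξ g φ (Icc 1 n) ω ∂P ≤ ∫⁻ z, φ z := fun n => by
    rw [h.Z_int hg hφ]
    exact lintegral_mono fun z => mul_le_of_le_one_right' (prod_le_one' fun k _ => h1 k z)
  have fin : ∀ n, ∫⁻ ω, Z ξ g φ (Icc 1 n) ω ∂P ≠ ∞ := fun n => ne_top_of_le_ne_top h2 (bd n)
  have sup : Supermartingale (fun n ω => (Z ξ g φ (Icc 1 n) ω).toReal) F P := by
    refine supermartingale_of_setIntegral_succ_le (fun n => (mz n).ennreal_toReal.stronglyMeasurable)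
      (fun n => integrable_toReal_of_lintegral_ne_top (mz' n).aemeasurable (fin n)) fun n s hs => ?_
    have f2 := fun n => ne_top_of_le_ne_top (fin n) (setLIntegral_le_lintegral s _)
    rw [integral_toReal (mz' _).aemeasurable (ae_lt_top (mz' _) (f2 _)),
      integral_toReal (mz' _).aemeasurable (ae_lt_top (mz' _) (f2 _))]
    refine ENNReal.toReal_mono (f2 _) ?_
    have j : ∀ n, AEMeasurable (Function.uncurry fun ω z => φ z * ∏ k ∈ Icc 1 n, g k z (ξ k ω))
        ((P.restrict s).prod volume) := fun n =>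
      ((hφ.comp measurable_snd).mul (Finset.measurable_prod _ fun k hk =>
        (hg k).comp (measurable_snd.prodMk ((h.me k).comp measurable_fst)))).aemeasurable
    unfold Z
    rw [lintegral_lintegral_swap (j _), lintegral_lintegral_swap (j _)]
    refine lintegral_mono fun z => ?_
    have e := lintegral_mul_eq_lintegral_mul_lintegral_of_independent_measurableSpace
      (f := s.indicator fun ω => φ z * ∏ k ∈ Icc 1 n, g k z (ξ k ω))
      (g := fun ω => g (n + 1) z (ξ (n + 1) ω)) (F.le n) (h.me (n + 1)).comap_le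
      (h.ind.indep_comap_natural_of_lt sm n.lt_succ_self).symm
      ((measurable_const.mul (Finset.measurable_prod _ fun k hk =>
        (m k z).comp (ad n k hk))).indicator hs) ((m _ z).comp (comap_measurable _))
    rw [h.lint _ (m _ z), lintegral_indicator (F.le n s hs)] at e
    refine le_trans (le_of_eq ?_) (e.trans_le (mul_le_of_le_one_right' (h1 _ z)))
    rw [← lintegral_indicator (F.le n s hs)]
    refine lintegral_congr fun ω => ?_
    by_cases hω : ω ∈ s <;> simp [hω, prod_Icc_succ_top, mul_assoc]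
  have := sup.neg.exists_ae_tendsto_of_bdd (R := (∫⁻ z, φ z).toNNReal) fun n => by
    rw [ENNReal.coe_toNNReal h2, eLpNorm_one_eq_lintegral_enorm]
    refine le_trans (lintegral_mono fun ω => ?_) (bd n)
    simp only [Pi.neg_apply, enorm_neg, Real.enorm_eq_ofReal ENNReal.toReal_nonneg]
    exact ENNReal.ofReal_toReal_le
  filter_upwards [this] with ω ⟨c, hc⟩
  exact ⟨-c, by simpa using hc.neg⟩

theorem int_wd (μ : Measure UnitAddCircle) {d : UnitAddCircle → ℝ} (hd : Continuous d)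
    (h0 : ∀ z, 0 ≤ d z) (f : UnitAddCircle → ℝ) :
    ∫ z, f z ∂(μ.withDensity fun z => ENNReal.ofReal (d z)) = ∫ z, f z * d z ∂μ := by
  rw [integral_withDensity_eq_integral_toReal_smul (by fun_prop) (by simp)]
  simp [ENNReal.toReal_ofReal (h0 _), mul_comm]

theorem fin_wd (μ : Measure UnitAddCircle) [IsFiniteMeasure μ] {d : UnitAddCircle → ℝ}
    (hd : Continuous d) : IsFiniteMeasure (μ.withDensity fun z => ENNReal.ofReal (d z)) :=
  isFiniteMeasure_withDensity_ofReal
    (hd.integrable_of_hasCompactSupport (HasCompactSupport.of_compactSpace _)).2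

theorem cint (μ : Measure UnitAddCircle) [IsFiniteMeasure μ] {d : UnitAddCircle → ℝ}
    (hd : Continuous d) : Integrable d μ :=
  hd.integrable_of_hasCompactSupport (HasCompactSupport.of_compactSpace _)

theorem weak (m : ℕ → FiniteMeasure UnitAddCircle) {c : ℝ}
    (h1 : Tendsto (fun n => (m n : Measure UnitAddCircle).real Set.univ) atTop (𝓝 c))
    (h2 : ∀ j, ∃ c, Tendsto (fun n => ∫ z, TopologicalSpace.denseSeq C(UnitAddCircle, ℝ) j z
      ∂(m n : Measure UnitAddCircle)) atTop (𝓝 c)) :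
    ∃ μ : Measure UnitAddCircle, IsFiniteMeasure μ ∧ ∀ f : C(UnitAddCircle, ℝ),
      Tendsto (fun n => ∫ z, f z ∂(m n : Measure UnitAddCircle)) atTop (𝓝 (∫ z, f z ∂μ)) := by
  obtain ⟨C, hC⟩ := h1.bddAbove_range
  have hC' : ∀ n, (m n : Measure UnitAddCircle).real Set.univ ≤ C := fun n => hC ⟨n, rfl⟩
  have C0 : 0 ≤ C := measureReal_nonneg.trans (hC' 0)
  obtain ⟨μ, hμ, hc⟩ := (isCompact_setOfPred_finiteMeasure_le_of_compactSpace UnitAddCircle
    ⟨C, C0⟩).exists_mapClusterPt (f := atTop) (u := m) (by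
      simp only [le_principal_iff, Filter.mem_map]
      exact Eventually.of_forall fun n => hC' n)
  have key : ∀ (f : C(UnitAddCircle, ℝ)) c, Tendsto (fun n => ∫ z, f z
      ∂(m n : Measure UnitAddCircle)) atTop (𝓝 c) → ∫ z, f z ∂(μ : Measure UnitAddCircle) = c :=
    fun f c hf => by
      have := hc.continuousAt_comp (FiniteMeasure.continuous_integral_boundedContinuousFunction
        (BoundedContinuousFunction.mkOfCompact f)).continuousAt
      exact eq_of_nhds_neBot (this.clusterPt.mono hf)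
  have df : ∀ (a : FiniteMeasure UnitAddCircle) (f g : C(UnitAddCircle, ℝ)),
      (a : Measure UnitAddCircle).real Set.univ ≤ C → dist (∫ z, f z ∂(a : Measure UnitAddCircle))
        (∫ z, g z ∂(a : Measure UnitAddCircle)) ≤ dist f g * C := fun a f g ha => by
    rw [dist_eq_norm, ← integral_sub (cint _ f.continuous) (cint _ g.continuous)]
    refine (norm_integral_le_of_norm_le_const (C := dist f g) (Eventually.of_forall fun z => ?_)).trans
      (mul_le_mul_of_nonneg_left ha dist_nonneg)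
    rw [← dist_eq_norm]; exact ContinuousMap.dist_apply_le_dist z
  refine ⟨μ, inferInstance, fun f => Metric.tendsto_nhds.2 fun ε hε => ?_⟩
  obtain ⟨j, hj⟩ := (TopologicalSpace.denseRange_denseSeq C(UnitAddCircle, ℝ)).exists_dist_lt f
    (by positivity : 0 < ε / (3 * (C + 1)))
  obtain ⟨c, h3⟩ := h2 j
  rw [← key _ c h3] at h3
  filter_upwards [Metric.tendsto_nhds.1 h3 (ε / 3) (by positivity)] with n hn
  have a1 := df (m n) f (TopologicalSpace.denseSeq _ j) (hC' n)
  have a2 := df μ (TopologicalSpace.denseSeq _ j) f hμ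
  rw [dist_comm (TopologicalSpace.denseSeq _ j)] at a2
  rw [lt_div_iff₀ (by positivity)] at hj
  nlinarith [dist_triangle4 (∫ z, f z ∂(m n : Measure UnitAddCircle))
    (∫ z, TopologicalSpace.denseSeq C(UnitAddCircle, ℝ) j z ∂(m n : Measure UnitAddCircle))
    (∫ z, TopologicalSpace.denseSeq C(UnitAddCircle, ℝ) j z ∂(μ : Measure UnitAddCircle))
    (∫ z, f z ∂(μ : Measure UnitAddCircle)), dist_nonneg (x := f)
    (y := TopologicalSpace.denseSeq C(UnitAddCircle, ℝ) j)]

end Pool.Agent.H.MP_ab74d4_pr
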