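import Pool.Agent.H.MP_ab74d4_pr.A

set_option autoImplicit false
open MeasureTheory ProbabilityTheory Finset Filter Topology Real
open scoped ENNReal

namespace Pool.Agent.H.MP_ab74d4_pr

variable {Ω : Type*} [mΩ : MeasurableSpace Ω] {P : Measure Ω} {ξ : ℕ → Ω → ℝ} {ν : Measure ℝ}
  {γ : ℝ}

noncomputable def co (k : ℕ) (z : UnitAddCircle) : ℝ := ((AddCircle.toCircle z : ℂ) ^ k).re

@[fun_prop] theorem co_cont (k : ℕ) : Continuous (co k) := by
  have := @AddCircle.continuous_toCircle 1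
  unfold co; fun_prop

theorem co_abs (k : ℕ) (z : UnitAddCircle) : |co k z| ≤ 1 :=
  (Complex.abs_re_le_norm _).trans (by rw [norm_pow, Circle.norm_coe, one_pow])

theorem co_coe (k : ℕ) (t : ℝ) : co k (t : UnitAddCircle) = cos (k * (2 * π * t)) := by
  rw [co, AddCircle.toCircle_apply_mk, Circle.coe_exp, ← Complex.exp_nat_mul,
    ← Complex.exp_ofReal_mul_I_re]
  congr 2; push_cast; ring

noncomputable def tr (k : ℕ) (x : ℝ) : ℝ := if |x| ≤ √k then x else 0

noncomputable def hh (γ : ℝ) (k : ℕ) (x : ℝ) : ℝ :=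
  if |x| ≤ √k then exp γ * γ ^ 3 * (|x| ^ 3 / √k ^ 3) else γ * (|x| / √k)

@[fun_prop] theorem tr_meas (k : ℕ) : Measurable (tr k) :=
  Measurable.ite (measurableSet_le (by fun_prop) measurable_const) measurable_id measurable_const

@[fun_prop] theorem hh_meas (γ : ℝ) (k : ℕ) : Measurable (hh γ k) :=
  Measurable.ite (measurableSet_le (by fun_prop) measurable_const) (by fun_prop) (by fun_prop)

theorem hh_nonneg (hγ : 0 < γ) (k : ℕ) (x : ℝ) : 0 ≤ hh γ k x := by
  unfold hh; split_ifs <;> positivity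

theorem tr_le (k : ℕ) (x : ℝ) : |tr k x| ≤ √k ∧ tr k x ^ 2 ≤ x ^ 2 := by
  unfold tr; split_ifs with h <;> simp [h, sq_nonneg]

theorem exp_le3 (y : ℝ) : exp y ≤ 1 + y + y ^ 2 / 2 + |y| ^ 3 * exp |y| := by
  have := Complex.norm_exp_sub_sum_le_norm_mul_exp y 3
  simp only [sum_range_succ, range_zero, sum_empty, Nat.factorial, Complex.norm_real,
    norm_eq_abs] at this
  rw [show Complex.exp y - _ = ((exp y - (1 + y + y ^ 2 / 2) : ℝ) : ℂ) by push_cast; ring,
    Complex.norm_real, norm_eq_abs] at this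
  linarith [le_abs_self (exp y - (1 + y + y ^ 2 / 2))]

theorem exp_tr (hγ : 0 < γ) {k : ℕ} (hk : 1 ≤ k) {c : ℝ} (hc : |c| ≤ 1) (x : ℝ) :
    exp (γ * (c / √k) * tr k x) ≤
      1 + γ * (c / √k) * x + (γ * (c / √k)) ^ 2 / 2 * tr k x ^ 2 + hh γ k x := by
  have s : 0 < √(k : ℝ) := sqrt_pos.2 (by exact_mod_cast hk)
  have a : |γ * (c / √k) * x| ≤ γ * (|x| / √k) := by
    rw [abs_mul, abs_mul, abs_div, abs_of_pos hγ, abs_of_pos s, mul_assoc, div_mul_eq_mul_div]
    gcongr; exact mul_le_of_le_one_left (abs_nonneg _) hc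
  unfold tr hh
  split_ifs with h
  · refine (exp_le3 _).trans (add_le_add (le_of_eq (by ring)) ?_)
    rw [mul_comm, mul_assoc (exp γ), ← div_pow, ← mul_pow]
    gcongr
    exact a.trans (mul_le_of_le_one_right hγ.le ((div_le_one s).2 h))
  · simp only [mul_zero, exp_zero]
    linarith [neg_abs_le (γ * (c / √k) * x)]

theorem hh_sum (hγ : 0 < γ) (x : ℝ) (n : ℕ) :
    ∑ k ∈ Icc 1 n, hh γ k x ≤ (4 * (exp γ * γ ^ 3) + 2 * γ) * x ^ 2 := by
  have a := abs_nonneg x
  suffices ∑ k ∈ Icc 1 n, hh γ k x ≤ exp γ * γ ^ 3 * x ^ 2 * (4 * max 0 (1 - |x| / √(n + 1))) +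
      γ * |x| * (2 * min √n |x|) by
    refine this.trans ?_
    have h1 : max 0 (1 - |x| / √(n + 1)) ≤ 1 := max_le zero_le_one (sub_le_self _ (by positivity))
    have h2 := mul_le_mul_of_nonneg_left h1 (by positivity : 0 ≤ exp γ * γ ^ 3 * x ^ 2)
    have h3 := mul_le_mul_of_nonneg_left (min_le_right √n |x|) (by positivity : 0 ≤ γ * |x|)
    nlinarith [sq_abs x]
  induction n with
  | zero => simp; positivity
  | succ n ih =>
    rw [sum_Icc_succ_top (by omega)]
    refine (add_le_add ih le_rfl).trans ?_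
    push_cast
    have n0 : (0 : ℝ) ≤ n := n.cast_nonneg
    have e0 := sq_sqrt n0
    have e1 := sq_sqrt (by positivity : (0 : ℝ) ≤ n + 1)
    have e2 := sq_sqrt (by positivity : (0 : ℝ) ≤ n + 1 + 1)
    have p0 := sqrt_nonneg (n : ℝ)
    have l1 : √(n : ℝ) ≤ √(n + 1) := sqrt_le_sqrt (by linarith)
    have l2 : √(n + 1 : ℝ) ≤ √(n + 1 + 1) := sqrt_le_sqrt (by linarith)
    have p1 : 1 ≤ √(n + 1 : ℝ) := one_le_sqrt.2 (by linarith)
    unfold hh
    push_cast
    generalize √(n + 1 + 1 : ℝ) = w at *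
    generalize √(n + 1 : ℝ) = v at *
    generalize √(n : ℝ) = u at *
    have v0 : 0 < v := by linarith
    have w0 : 0 < w := by linarith
    split_ifs with h
    · have b1 : min u |x| ≤ min v |x| := min_le_min_right _ l1
      have b2 : |x| / v ^ 3 ≤ 4 * (|x| / v - |x| / w) := by
        have : 1 / v ^ 3 ≤ 4 * (1 / v - 1 / w) := by
          have w2 : w ≤ 3 / 2 * v := by nlinarith
          rw [div_sub_div _ _ v0.ne' w0.ne', ← mul_div_assoc, div_le_div_iff₀ (by positivity)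
            (by positivity)]
          have h1 : (w - v) * (w + v) = 1 := by nlinarith
          have h2 : w * (w + v) ≤ 4 * v ^ 2 := by nlinarith
          have h3 := mul_le_mul_of_nonneg_left h2 (mul_nonneg v0.le (sub_nonneg.2 l2))
          nlinarith
        have := mul_le_mul_of_nonneg_left this a
        simp only [div_eq_mul_inv] at this ⊢; linarith
      rw [max_eq_right (sub_nonneg.2 ((div_le_one v0).2 h))]
      have b3 := mul_le_mul_of_nonneg_left ((add_le_add_right b2 (4 * (1 - |x| / v))).trans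
        (show _ ≤ 4 * max 0 (1 - |x| / w) by linarith [le_max_right 0 (1 - |x| / w)]))
        (by positivity : 0 ≤ exp γ * γ ^ 3 * x ^ 2)
      have b4 := mul_le_mul_of_nonneg_left b1 (by positivity : 0 ≤ γ * |x|)
      have b5 : |x| ^ 3 / v ^ 3 = x ^ 2 * (|x| / v ^ 3) := by rw [← sq_abs]; ring
      rw [b5]
      linarith
    · push Not at h
      have b1 : max 0 (1 - |x| / v) ≤ max 0 (1 - |x| / w) := by gcongr
      have b2 : 1 / v ≤ 2 * (v - u) := by rw [div_le_iff₀ v0]; nlinarith [sq_nonneg (v - u)]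
      rw [min_eq_left h.le, min_eq_left (l1.trans h.le)]
      have b3 := mul_le_mul_of_nonneg_left b1 (by positivity : 0 ≤ exp γ * γ ^ 3 * x ^ 2)
      have b4 := mul_le_mul_of_nonneg_left b2 (by positivity : 0 ≤ γ * |x|)
      simp only [div_eq_mul_inv] at b3 b4 ⊢
      linarith

structure Law (ν : Measure ℝ) : Prop where
  pr : IsProbabilityMeasure ν
  l2 : MemLp id 2 ν
  m1 : ∫ x, x ∂ν = 0
  m2 : Var[id; ν] = 1

theorem Law.sq (h : Law ν) : Integrable (fun x => x ^ 2) ν ∧ ∫ x, x ^ 2 ∂ν = 1 :=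
  ⟨h.l2.integrable_sq, by rw [← h.m2, variance_eq_integral aemeasurable_id]; simp [h.m1]⟩

theorem Law.hh_int (h : Law ν) (hγ : 0 < γ) {k : ℕ} (hk : 1 ≤ k) : Integrable (hh γ k) ν :=
  (h.sq.1.const_mul _).mono' (hh_meas γ k).aestronglyMeasurable (Eventually.of_forall fun x => by
    rw [norm_of_nonneg (hh_nonneg hγ k x)]
    exact (single_le_sum (f := fun k => hh γ k x) (fun k _ => hh_nonneg hγ k x)
      (by simp [hk])).trans (hh_sum hγ x k))

noncomputable def ep (ν : Measure ℝ) (γ : ℝ) (k : ℕ) : ℝ := ∫ x, hh γ k x ∂ν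

noncomputable def de (ν : Measure ℝ) (k : ℕ) : ℝ := 1 - ∫ x, tr k x ^ 2 ∂ν

theorem ep_nonneg (hγ : 0 < γ) (k : ℕ) : 0 ≤ ep ν γ k := integral_nonneg (hh_nonneg hγ k)

theorem Law.tr_int (h : Law ν) (k : ℕ) : Integrable (fun x => tr k x ^ 2) ν :=
  h.sq.1.mono' (by fun_prop) (Eventually.of_forall fun x => by
    rw [norm_of_nonneg (sq_nonneg _)]; exact (tr_le k x).2)

theorem Law.de_nonneg (h : Law ν) (k : ℕ) : 0 ≤ de ν k :=
  sub_nonneg.2 ((integral_mono (h.tr_int k) h.sq.1 fun x => (tr_le k x).2).trans_eq h.sq.2)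

theorem Law.ep_sum (h : Law ν) (hγ : 0 < γ) : Summable fun k => ep ν γ (k + 1) := by
  refine summable_of_sum_range_le (c := 4 * (exp γ * γ ^ 3) + 2 * γ) (fun k => ep_nonneg hγ _)
    fun n => ?_
  have := integral_mono (integrable_finsetSum (Icc 1 n) fun k hk => h.hh_int hγ (mem_Icc.1 hk).1)
    (h.sq.1.const_mul _) fun x => hh_sum hγ x n
  rw [integral_const_mul, h.sq.2, mul_one, integral_finsetSum _ fun k hk =>
    h.hh_int hγ (mem_Icc.1 hk).1] at this
  rw [range_eq_Ico, sum_Ico_add' (ep ν γ) 0 n 1]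
  exact this

noncomputable def gt (ν : Measure ℝ) (γ : ℝ) (k : ℕ) (z : UnitAddCircle) (x : ℝ) : ℝ :=
  if k = 0 then 1 else
    exp (γ * (co k z / √k) * tr k x - (γ * (co k z / √k)) ^ 2 / 2 - ep ν γ k)

theorem Law.gt_int (h : Law ν) (hγ : 0 < γ) (k : ℕ) (z : UnitAddCircle) :
    ∫⁻ x, ENNReal.ofReal (gt ν γ k z x) ∂ν ≤
      ENNReal.ofReal (exp (-((γ * (co k z / √k)) ^ 2 / 2 * de ν k))) := by
  have := h.pr
  rcases Nat.eq_zero_or_pos k with rfl | hk
  · simp [gt]
  simp only [gt, if_neg hk.ne', sub_sub, exp_sub]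
  obtain ⟨a, ha⟩ : ∃ a, a = γ * (co k z / √k) := ⟨_, rfl⟩
  have b := fun x => exp_tr hγ hk (co_abs k z) x
  rw [← ha] at b ⊢
  have i0 : Integrable (fun x => a * x) ν := (h.l2.integrable one_le_two).const_mul a
  have i1 : Integrable (fun x => 1 + a * x) ν := (integrable_const _).add i0
  have i2 := (h.tr_int k).const_mul (a ^ 2 / 2)
  have i3 : Integrable (fun x => 1 + a * x + a ^ 2 / 2 * tr k x ^ 2) ν := i1.add i2
  have i4 : Integrable (fun x => 1 + a * x + a ^ 2 / 2 * tr k x ^ 2 + hh γ k x) ν :=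
    i3.add (h.hh_int hγ hk)
  refine (lintegral_mono fun x => ENNReal.ofReal_le_ofReal (div_le_div_of_nonneg_right (b x)
    (exp_pos _).le)).trans ?_
  rw [← ofReal_integral_eq_lintegral_ofReal (i4.div_const _) (Eventually.of_forall fun x =>
    div_nonneg ((exp_pos _).le.trans (b x)) (exp_pos _).le), integral_div,
    integral_add i3 (h.hh_int hγ hk), integral_add i1 i2, integral_add (integrable_const _) i0,
    integral_const_mul, integral_const_mul]
  refine ENNReal.ofReal_le_ofReal ?_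
  rw [div_le_iff₀ (exp_pos _), ← exp_add]
  refine le_trans (le_of_eq ?_) (add_one_le_exp _)
  simp [h.m1, de, ep]; ring

theorem gt_pos (k : ℕ) (z : UnitAddCircle) (x : ℝ) : 0 < gt ν γ k z x := by
  unfold gt; split_ifs <;> positivity

theorem gt_cont (k : ℕ) (x : ℝ) : Continuous fun z => gt ν γ k z x := by
  unfold gt; split_ifs <;> fun_prop

theorem gt_meas (k : ℕ) :
    Measurable (Function.uncurry fun z x => ENNReal.ofReal (gt ν γ k z x)) := by
  have := (co_cont k).measurable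
  unfold gt Function.uncurry; split_ifs <;> fun_prop

noncomputable def dn (ν : Measure ℝ) (γ : ℝ) (x : ℕ → ℝ) (n : ℕ) (z : UnitAddCircle) : ℝ :=
  ∏ k ∈ Icc 1 n, gt ν γ k z (x k)

noncomputable def Dn (γ : ℝ) (x : ℕ → ℝ) (s : Finset ℕ) (z : UnitAddCircle) : ℝ :=
  exp (∑ k ∈ s, (γ * (co k z / √k) * x k - (γ * (co k z / √k)) ^ 2 / 2))

theorem dn_cont (x : ℕ → ℝ) (n : ℕ) : Continuous (dn ν γ x n) :=
  continuous_finsetProd _ fun k _ => gt_cont k _

@[fun_prop] theorem Dn_cont (x : ℕ → ℝ) (s : Finset ℕ) : Continuous (Dn γ x s) := by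
  unfold Dn; fun_prop

theorem dn_pos (x : ℕ → ℝ) (n : ℕ) (z : UnitAddCircle) : 0 < dn ν γ x n z :=
  prod_pos fun k _ => gt_pos k z _

omit mΩ in
theorem Z_toReal {f : UnitAddCircle → ℝ} (hf : Continuous f) (h0 : ∀ z, 0 ≤ f z) (n : ℕ) (ω : Ω) :
    Z ξ (fun k z x => ENNReal.ofReal (gt ν γ k z x)) (fun z => ENNReal.ofReal (f z)) (Icc 1 n)
      ω = ENNReal.ofReal (∫ z, f z * dn ν γ (fun k => ξ k ω) n z) := by
  rw [ofReal_integral_eq_lintegral_ofReal (cint _ (hf.fun_mul (dn_cont _ n)))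
    (Eventually.of_forall fun z => mul_nonneg (h0 z) (dn_pos _ _ _).le)]
  refine lintegral_congr fun z => ?_
  rw [ENNReal.ofReal_mul (h0 z), dn, ENNReal.ofReal_prod_of_nonneg fun k _ => (gt_pos k z _).le]

theorem IID.d_conv (h : IID P ξ ν) (hν : Law ν) (hγ : 0 < γ) {f : UnitAddCircle → ℝ}
    (hf : Continuous f) (h0 : ∀ z, 0 ≤ f z) : ∀ᵐ ω ∂P, ∃ c, Tendsto
      (fun n => ∫ z, f z * dn ν γ (fun k => ξ k ω) n z) atTop (𝓝 c) := by
  have := h.Z_conv (g := fun k z x => ENNReal.ofReal (gt ν γ k z x)) gt_meas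
    (φ := fun z => ENNReal.ofReal (f z)) (by fun_prop) (fun k z => (hν.gt_int hγ k z).trans (by
      rw [ENNReal.ofReal_le_one, exp_le_one_iff, neg_nonpos]
      exact mul_nonneg (by positivity) (hν.de_nonneg k))) (by
      rw [← ofReal_integral_eq_lintegral_ofReal (cint _ hf) (Eventually.of_forall h0)]; simp)
  filter_upwards [this] with ω ⟨c, hc⟩
  refine ⟨c, hc.congr fun n => ?_⟩
  rw [Z_toReal hf h0, ENNReal.toReal_ofReal
    (integral_nonneg fun z => mul_nonneg (h0 z) (dn_pos _ _ _).le)]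

theorem IID.ev (h : IID P ξ ν) (hν : Law ν) : ∀ᵐ ω ∂P, ∀ᶠ k in atTop, tr k (ξ k ω) = ξ k ω := by
  have := ae_eventually_notMem (μ := P) (s := fun k => {ω | ¬ |ξ (k + 1) ω| ≤ √(k + 1 : ℕ)}) (by
    refine ne_top_of_le_ne_top (ENNReal.ofReal_ne_top (r := ∑' k, ep ν 1 (k + 1))) ?_
    rw [ENNReal.ofReal_tsum_of_nonneg (fun k => ep_nonneg one_pos _) (hν.ep_sum one_pos)]
    refine ENNReal.tsum_le_tsum fun k => ?_
    rw [ep, ofReal_integral_eq_lintegral_ofReal (hν.hh_int one_pos (by omega))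
      (Eventually.of_forall (hh_nonneg one_pos _)), ← h.lint (k + 1) (by fun_prop)]
    refine meas_le_lintegral₀ (by have := h.me (k + 1); fun_prop) fun ω hω => ?_
    simp only [Set.mem_ofPred_eq] at hω
    rw [ENNReal.one_le_ofReal, hh, if_neg hω, one_mul, one_le_div (by positivity)]
    exact (not_le.1 hω).le)
  filter_upwards [this] with ω hω
  rw [eventually_atTop] at hω ⊢
  obtain ⟨N, hN⟩ := hω
  refine ⟨N + 1, fun k hk => ?_⟩
  obtain ⟨k, rfl⟩ := Nat.exists_eq_add_of_le' (show 1 ≤ k by omega)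
  exact if_pos (by simpa using hN k (by omega))

theorem IID.main (h : IID P ξ ν) (hν : Law ν) (hγ : 0 < γ) : ∀ᵐ ω ∂P,
    ∃ (μ : Measure UnitAddCircle) (H : UnitAddCircle → ℝ), IsFiniteMeasure μ ∧ Continuous H ∧
      (∀ z, 0 ≤ H z) ∧
      Tendsto (fun n => ∫ z, dn ν γ (fun k => ξ k ω) n z) atTop (𝓝 (μ.real Set.univ)) ∧
      ∀ f : C(UnitAddCircle, ℝ), Tendsto (fun n => ∫ z, f z * Dn γ (fun k => ξ k ω) (Icc 1 n) z)
        atTop (𝓝 (∫ z, f z * H z ∂μ)) := by
  have a1 := h.d_conv hν hγ (f := fun _ => 1) continuous_const fun _ => zero_le_one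
  have a2 := ae_all_iff.2 fun j => h.d_conv hν hγ (f := fun z =>
    TopologicalSpace.denseSeq C(UnitAddCircle, ℝ) j z +
      ‖TopologicalSpace.denseSeq C(UnitAddCircle, ℝ) j‖) (by fun_prop) fun z => by
    linarith [neg_abs_le (TopologicalSpace.denseSeq C(UnitAddCircle, ℝ) j z),
      show |_| ≤ _ from (TopologicalSpace.denseSeq C(UnitAddCircle, ℝ) j).norm_coe_le_norm z]
  filter_upwards [a1, a2, h.ev hν] with ω ⟨c, h1⟩ h2 h3
  have e := fun n (f : UnitAddCircle → ℝ) => int_wd volume (dn_cont (ν := ν) (γ := γ)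
    (fun k => ξ k ω) n) (fun z => (dn_pos _ n z).le) f
  simp only [one_mul] at h1
  obtain ⟨μ, m1, m2⟩ := weak (fun n => ⟨_, fin_wd volume (dn_cont (ν := ν) (γ := γ)
    (fun k => ξ k ω) n)⟩) (c := c) (h1.congr fun n => by simpa using (e n fun _ => 1).symm)
    fun j => by
      obtain ⟨c', h4⟩ := h2 j
      refine ⟨_, (h4.sub (h1.const_mul ‖TopologicalSpace.denseSeq C(UnitAddCircle, ℝ) j‖)).congr
        fun n => ?_⟩
      have := dn_cont (ν := ν) (γ := γ) (fun k => ξ k ω) n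
      simp only [FiniteMeasure.toMeasure_mk, e, add_mul]
      rw [integral_add (cint _ (by fun_prop)) (cint _ (by fun_prop)), integral_const_mul,
        add_sub_cancel_right]
  simp only [FiniteMeasure.toMeasure_mk, e] at m2
  obtain ⟨N, hN⟩ := eventually_atTop.1 h3
  obtain ⟨H, hH⟩ : ∃ H : C(UnitAddCircle, ℝ), ∀ z, H z =
      exp (∑ k ∈ Icc 1 N, γ * (co k z / √k) * (ξ k ω - tr k (ξ k ω))) :=
    ⟨⟨_, by fun_prop⟩, fun z => rfl⟩
  refine ⟨μ, fun z => exp (∑' k, ep ν γ (k + 1)) * H z, m1, by fun_prop,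
    fun z => by simp only [hH]; positivity, by simpa using m2 1, fun f => ?_⟩
  have := ((continuous_exp.tendsto _).comp (hν.ep_sum hγ).hasSum.tendsto_sum_nat).mul (m2 (f * H))
  rw [← integral_const_mul] at this
  rw [integral_congr_ae (g := fun z => exp (∑' k, ep ν γ (k + 1)) * (f * H) z)
    (Eventually.of_forall fun z => by simp; ring)]
  refine this.congr' ?_
  filter_upwards [eventually_ge_atTop N] with n hn
  rw [← integral_const_mul]
  refine integral_congr_ae (Eventually.of_forall fun z => ?_)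
  have e1 : dn ν γ (fun k => ξ k ω) n z = exp (∑ k ∈ Icc 1 n, (γ * (co k z / √k) * tr k (ξ k ω) -
      (γ * (co k z / √k)) ^ 2 / 2 - ep ν γ k)) := by
    rw [exp_sum]
    exact prod_congr rfl fun k hk => if_neg (by have := (mem_Icc.1 hk).1; omega)
  simp only [Function.comp, ContinuousMap.mul_apply, hH, e1, Dn]
  rw [sum_subset (Icc_subset_Icc_right hn) fun k h1 h2 => by
    rw [hN k (by simp at h1 h2; omega)]; simp, range_eq_Ico, sum_Ico_add' (ep ν γ) 0 n 1,
    mul_left_comm, mul_assoc, mul_left_comm (exp _), ← exp_add, ← exp_add]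
  congr 2
  rw [show Ico (0 + 1) (n + 1) = Icc 1 n from rfl, ← sum_add_distrib, ← sum_add_distrib]
  exact sum_congr rfl fun k _ => by ring

end Pool.Agent.H.MP_ab74d4_pr
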