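import Pool.Agent.H.MP_ab74d4_pr.B

set_option autoImplicit false
open MeasureTheory ProbabilityTheory Finset Filter Topology Real
open scoped ENNReal

namespace Pool.Agent.H.MP_ab74d4_pr

variable {Ω : Type*} [mΩ : MeasurableSpace Ω] {P : Measure Ω} {ξ : ℕ → Ω → ℝ} {ν : Measure ℝ}
  {γ : ℝ}

theorem co_two (k : ℕ) (z : UnitAddCircle) : co (2 * k) z = 2 * co k z ^ 2 - 1 := by
  induction z using QuotientAddGroup.induction_on with
  | H t => rw [co_coe, co_coe, ← cos_two_mul]; congr 1; push_cast; ring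

theorem Law.de_anti (h : Law ν) {k l : ℕ} (hk : 0 < k) (hl : k ≤ l) : de ν l / l ≤ de ν k / k := by
  refine div_le_div₀ (h.de_nonneg k) (sub_le_sub_left (integral_mono (h.tr_int k) (h.tr_int l)
    fun x => ?_) _) (by exact_mod_cast hk) (by exact_mod_cast hl)
  have : √(k : ℝ) ≤ √(l : ℝ) := sqrt_le_sqrt (by exact_mod_cast hl)
  simp only [tr]
  split_ifs with h1 h2 <;> first | rfl | positivity | linarith | nlinarith [sq_nonneg x]

theorem Law.diverge (h : Law ν) (hd : ¬ Summable fun k => de ν k / k) (z : UnitAddCircle) :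
    ¬ Summable fun k => de ν k / k * co k z ^ 2 := fun H => by
  have p : ∀ k, 0 ≤ de ν k / k := fun k => div_nonneg (h.de_nonneg k) k.cast_nonneg
  have a1 := H.comp_injective (mul_right_injective₀ (two_ne_zero (α := ℕ)))
  have a2 : Summable fun k => de ν (2 * k) / (2 * k : ℕ) := by
    refine ((H.add a1).mul_left 4).of_nonneg_of_le (fun k => p _) fun k => ?_
    rcases Nat.eq_zero_or_pos k with rfl | hk
    · simp
    have h1 := mul_le_mul_of_nonneg_right (h.de_anti hk (by omega : k ≤ 2 * k)) (sq_nonneg (co k z))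
    have h2 : 1 ≤ 4 * (co k z ^ 2 + (2 * co k z ^ 2 - 1) ^ 2) := by
      nlinarith [sq_nonneg (co k z ^ 2 - 3 / 8)]
    simp only [Function.comp, co_two]
    nlinarith [mul_le_mul_of_nonneg_left h2 (p (2 * k))]
  refine hd (Summable.even_add_odd a2 ((summable_nat_add_iff 1).1
    (((summable_nat_add_iff 1).2 a2).of_nonneg_of_le (fun k => p _) fun k =>
      h.de_anti (by omega) (by omega))))

theorem IID.zero (h : IID P ξ ν) (hν : Law ν) (hγ : 0 < γ) (hd : ¬ Summable fun k => de ν k / k) :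
    ∀ᵐ ω ∂P, Tendsto (fun n => ∫ z, Dn γ (fun k => ξ k ω) (Icc 1 n) z) atTop (𝓝 0) := by
  let W := fun n => Z ξ (fun k z x => ENNReal.ofReal (gt ν γ k z x))
    (fun _ => ENNReal.ofReal 1) (Icc 1 n)
  have mW : ∀ n, Measurable (W n) := fun n => Z_meas _ (fun k _ => h.me k) gt_meas measurable_const
  have a1 : Tendsto (fun n => ∫⁻ z, ENNReal.ofReal (exp (-(γ ^ 2 / 2 *
      ∑ k ∈ range (n + 1), de ν k / k * co k z ^ 2)))) atTop (𝓝 (∫⁻ _ : UnitAddCircle, 0)) := by
    have p : ∀ k z, 0 ≤ de ν k / k * co k z ^ 2 := fun k z =>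
      mul_nonneg (div_nonneg (hν.de_nonneg k) k.cast_nonneg) (sq_nonneg _)
    refine tendsto_lintegral_of_dominated_convergence (fun _ => 1) (fun n => by fun_prop)
      (fun n => Eventually.of_forall fun z => ?_) (by simp) (Eventually.of_forall fun z => ?_)
    · simp only [ENNReal.ofReal_le_one, exp_le_one_iff, neg_nonpos]
      exact mul_nonneg (by positivity) (sum_nonneg fun k _ => p k z)
    · rw [← ENNReal.ofReal_zero]
      exact ENNReal.tendsto_ofReal (tendsto_exp_neg_atTop_nhds_zero.comp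
        ((((not_summable_iff_tendsto_nat_atTop_of_nonneg fun k => p k z).1
          (hν.diverge hd z)).comp (tendsto_add_atTop_nat 1)).const_mul_atTop (by positivity)))
  rw [lintegral_zero] at a1
  have a2 : Tendsto (fun n => ∫⁻ ω, W n ω ∂P) atTop (𝓝 0) := by
    refine tendsto_of_tendsto_of_tendsto_of_le_of_le tendsto_const_nhds a1 (fun _ => zero_le)
      fun n => ?_
    simp only [W]
    rw [h.Z_int gt_meas measurable_const]
    refine lintegral_mono fun z => ?_
    rw [ENNReal.ofReal_one, one_mul]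
    refine (prod_le_prod' fun k _ => hν.gt_int hγ k z).trans_eq ?_
    rw [← ENNReal.ofReal_prod_of_nonneg fun k _ => (exp_pos _).le, ← exp_sum, range_eq_Ico,
      sum_eq_sum_Ico_succ_bot (by omega), mul_add, mul_sum, sum_neg_distrib]
    simp only [Nat.cast_zero, div_zero, zero_mul, mul_zero, zero_add]
    congr 3
    refine sum_congr rfl fun k _ => ?_
    rw [mul_pow, div_pow, sq_sqrt k.cast_nonneg]; ring
  have a3 := (lintegral_liminf_le mW).trans_eq a2.liminf_eq
  rw [nonpos_iff_eq_zero, lintegral_eq_zero_iff (Measurable.liminf mW)] at a3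
  filter_upwards [a3, h.main hν hγ] with ω h1 ⟨μ, H, m1, _, _, m2, m3⟩
  have a4 := (ENNReal.tendsto_ofReal m2).congr (f₂ := fun n => W n ω) fun n => by
    simp only [W]; rw [Z_toReal continuous_const fun _ => zero_le_one]; simp
  rw [a4.liminf_eq, ofReal_measureReal, Pi.zero_apply, Measure.measure_univ_eq_zero] at h1
  simpa [h1] using m3 1

theorem exists_law : ∃ ν : Measure ℝ, Law ν ∧ ¬ Summable fun k => de ν k / k := by
  obtain ⟨v, hv⟩ : ∃ v : ℕ → ℝ, v = fun j : ℕ => 1 / ((j + 1) * (j + 2) : ℝ) := ⟨_, rfl⟩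
  have v0 : ∀ j, 0 ≤ v j := fun j => by rw [hv]; positivity
  have v1 : ∀ m, ∑ j ∈ range m, v j = 1 - 1 / (m + 1 : ℝ) := fun m => by
    induction m with
    | zero => simp
    | succ m ih => rw [sum_range_succ, ih, hv]; push_cast; field_simp; ring
  have v2 : ∑' j, ENNReal.ofReal (v j) = 1 := by
    have : HasSum v 1 := (hasSum_iff_tendsto_nat_of_nonneg v0 1).2 (by
      simpa [v1] using tendsto_one_div_add_atTop_nhds_zero_nat (𝕜 := ℝ).const_sub 1)
    rw [← ENNReal.ofReal_tsum_of_nonneg v0 this.summable, this.tsum_eq, ENNReal.ofReal_one]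
  obtain ⟨p, hp⟩ : ∃ p : ℕ → ℝ≥0∞, p = fun j => ENNReal.ofReal (v j / (2 * (2 ^ (j + 1)) ^ 2)) :=
    ⟨_, rfl⟩
  have p1 : ∀ j, p j * (ENNReal.ofReal ((2 ^ (j + 1)) ^ 2) +
      ENNReal.ofReal ((2 ^ (j + 1)) ^ 2)) = ENNReal.ofReal (v j) := fun j => by
    have := v0 j
    rw [hp, ← ENNReal.ofReal_add (by positivity) (by positivity), ← ENNReal.ofReal_mul
      (by positivity)]
    congr 1; field_simp; ring
  have p2 : ∑' j, p j * (1 + 1) ≤ 1 := (ENNReal.tsum_le_tsum fun j => by
    have : 1 ≤ ENNReal.ofReal ((2 ^ (j + 1)) ^ 2) :=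
      ENNReal.one_le_ofReal.2 (one_le_pow₀ (one_le_pow₀ one_le_two))
    rw [← p1]; gcongr).trans_eq v2
  obtain ⟨ν, hν⟩ : ∃ ν : Measure ℝ, ∀ f : ℝ → ℝ≥0∞, ∫⁻ x, f x ∂ν =
      (1 - ∑' j, p j * (1 + 1)) * f 0 + ∑' j, p j * (f (2 ^ (j + 1)) + f (-2 ^ (j + 1))) :=
    ⟨(1 - ∑' j, p j * (1 + 1)) • Measure.dirac 0 + Measure.sum fun j => p j •
      (Measure.dirac (2 ^ (j + 1)) + Measure.dirac (-2 ^ (j + 1))), fun f => by
      simp only [lintegral_add_measure, lintegral_smul_measure, lintegral_sum_measure,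
        lintegral_dirac, smul_eq_mul]⟩
  have pr : IsProbabilityMeasure ν := ⟨by
    rw [← lintegral_one, hν, mul_one, tsub_add_cancel_of_le p2]⟩
  have s2 : ∫⁻ x, ENNReal.ofReal (x ^ 2) ∂ν = 1 := by
    simp only [hν, neg_sq, p1, v2]; simp
  have sy : ν.map (fun x => -x) = ν := Measure.ext_of_lintegral _ fun f hf => by
    rw [lintegral_map hf measurable_neg, hν, hν]; simp [add_comm]
  have m1 : ∫ x, x ∂ν = 0 := by
    have := integral_map (μ := ν) (φ := fun x : ℝ => -x) (f := fun x : ℝ => x) (by fun_prop)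
      (by fun_prop)
    rw [sy, integral_neg] at this; linarith
  have i2 : Integrable (fun x => x ^ 2) ν := ⟨by fun_prop, (hasFiniteIntegral_iff_ofReal
    (Eventually.of_forall fun x => sq_nonneg _)).2 (by simp [s2])⟩
  have L : Law ν := ⟨pr, (memLp_two_iff_integrable_sq (by fun_prop)).2 i2, m1, by
    rw [variance_eq_integral aemeasurable_id]
    simp only [id, m1, sub_zero]
    rw [integral_eq_lintegral_of_nonneg_ae (Eventually.of_forall fun x => sq_nonneg _) i2.1, s2]
    simp⟩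
  refine ⟨ν, L, fun H => ?_⟩
  have a1 := (summable_condensed_iff_of_nonneg (fun k => div_nonneg (L.de_nonneg k) k.cast_nonneg)
    fun k l hk hl => L.de_anti hk hl).2 H
  refine not_summable_one_div_natCast ((summable_nat_add_iff 1).1
    (a1.of_nonneg_of_le (fun k => by positivity) fun m => ?_))
  push_cast
  rw [mul_div_cancel₀ _ (by positivity), de, le_sub_comm, ← v1,
    integral_eq_lintegral_of_nonneg_ae (Eventually.of_forall fun x => sq_nonneg _) (L.tr_int _).1,
    hν]
  refine ENNReal.toReal_le_of_le_ofReal (sum_nonneg fun j _ => v0 j) ?_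
  rw [ENNReal.ofReal_sum_of_nonneg fun j _ => v0 j, show tr (2 ^ m) 0 = 0 by simp [tr], zero_pow two_ne_zero,
    ENNReal.ofReal_zero, mul_zero, zero_add]
  refine (tsum_eq_sum (s := range m) fun j hj => ?_).trans_le (sum_le_sum fun j _ => ?_)
  swap
  · rw [← p1]
    exact mul_le_mul' le_rfl (add_le_add (ENNReal.ofReal_le_ofReal (tr_le _ _).2)
      (ENNReal.ofReal_le_ofReal ((tr_le _ _).2.trans_eq (neg_sq _))))
  · have : ¬ |(2 : ℝ) ^ (j + 1)| ≤ √(2 ^ m : ℕ) := by
      rw [not_le, abs_of_pos (by positivity), sqrt_lt' (by positivity), ← pow_mul]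
      push_cast
      exact pow_lt_pow_right₀ one_lt_two (by simp at hj; omega)
    simp only [tr, abs_neg, if_neg this]; simp

end Pool.Agent.H.MP_ab74d4_pr
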