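import Pool.Agent.H.MP_ab74d4_pr.C

set_option autoImplicit false
open MeasureTheory ProbabilityTheory Finset Filter Topology Real
open scoped ENNReal NNReal

namespace Pool.Agent.H.MP_ab74d4_pr

variable {Ω : Type*} [mΩ : MeasurableSpace Ω] {P : Measure Ω} {ξ : ℕ → Ω → ℝ} {γ : ℝ}

noncomputable def SS (n : ℕ) (z : UnitAddCircle) : ℝ := ∑ k ∈ Icc 1 n, co k z / k

@[fun_prop] theorem SS_cont (n : ℕ) : Continuous (SS n) := by unfold SS; fun_prop

theorem SS_harm (n : ℕ) (z : UnitAddCircle) {m : ℕ} (h : n ≤ m) : SS n z ≤ 1 + log m := by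
  refine le_trans ?_ (harmonic_le_one_add_log m)
  rw [harmonic_eq_sum_Icc]
  push_cast
  refine (sum_le_sum fun k _ => ?_).trans (sum_le_sum_of_subset_of_nonneg (Icc_subset_Icc_right h)
    fun k _ _ => by positivity)
  rw [← one_div]
  exact div_le_div_of_nonneg_right (abs_le.1 (co_abs k z)).2 k.cast_nonneg

theorem SS_le (n : ℕ) {t : ℝ} (h0 : t ≠ 0) (h1 : |t| ≤ 1 / 2) :
    SS n t ≤ 3 + log (1 / |t|) := by
  have a := abs_pos.2 h0
  have s : 2 * |t| ≤ |sin (π * t)| := by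
    have := mul_abs_le_abs_sin (x := π * t) (by
      rw [abs_mul, abs_of_pos pi_pos]; nlinarith [pi_pos])
    rwa [abs_mul, abs_of_pos pi_pos, ← mul_assoc, div_mul_cancel₀ _ pi_pos.ne'] at this
  have s0 : sin (π * t) ≠ 0 := abs_pos.1 (by linarith)
  obtain ⟨u, hu⟩ : ∃ u : ℕ → ℝ, u = fun k : ℕ => sin ((2 * k + 1) * (π * t)) / (2 * sin (π * t)) :=
    ⟨_, rfl⟩
  obtain ⟨m, hm⟩ : ∃ m : ℕ, m = ⌈1 / (4 * |t|)⌉₊ := ⟨_, rfl⟩
  have m1 : 1 / (4 * |t|) ≤ m := hm ▸ Nat.le_ceil _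
  have m0 : (0 : ℝ) < m := lt_of_lt_of_le (by positivity) m1
  have m2 : (m : ℝ) ≤ 1 / |t| := by
    have := hm ▸ Nat.ceil_lt_add_one (by positivity : 0 ≤ 1 / (4 * |t|))
    refine this.le.trans ?_
    rw [div_add_one (by positivity), div_le_div_iff₀ (by positivity) a]; nlinarith
  have u1 : ∀ k, |u k| ≤ m := fun k => by
    refine le_trans ?_ m1
    rw [hu, abs_div, abs_mul, abs_two]
    exact div_le_div₀ zero_le_one (abs_sin_le_one _) (by positivity) (by linarith)
  have u2 : ∀ k, co (k + 1) t = u (k + 1) - u k := fun k => by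
    rw [co_coe, hu, ← sub_div, sin_sub_sin, eq_div_iff (by positivity)]
    push_cast; ring_nf
  have l := log_le_log m0 m2
  rcases le_total n m with h | h
  · linarith [SS_harm n (t : UnitAddCircle) h]
  have : SS n t - u n / n ≤ SS m t - u m / m + m * (1 / m - 1 / n) := by
    induction n, h using Nat.le_induction with
    | base => simp
    | succ n h ih =>
      have n0 : (0 : ℝ) < n := m0.trans_le (by exact_mod_cast h)
      rw [SS, sum_Icc_succ_top (by omega), ← SS, u2]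
      push_cast
      have := mul_le_mul_of_nonneg_right (abs_le.1 (u1 n)).2 (sub_nonneg.2
        (one_div_le_one_div_of_le n0 (by linarith : (n : ℝ) ≤ n + 1)))
      simp only [div_eq_mul_inv] at this ih ⊢
      linarith
  have n0 : (0 : ℝ) ≤ (n : ℝ)⁻¹ := by positivity
  have a1 := mul_le_mul_of_nonneg_right (abs_le.1 (u1 n)).2 n0
  have a2 := mul_le_mul_of_nonneg_right (abs_le.1 (u1 m)).1 (inv_pos.2 m0).le
  have a3 := mul_inv_cancel₀ m0.ne'
  simp only [div_eq_mul_inv] at this l ⊢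
  linarith [SS_harm m (t : UnitAddCircle) le_rfl]

theorem SS_int : ∃ I : ℝ≥0, ∀ γ : ℝ, γ ^ 2 ≤ 1 / 4 → ∀ n,
    ∫⁻ z, ENNReal.ofReal (exp (2 * γ ^ 2 * SS n z)) ≤ I := by
  have a := (intervalIntegral.intervalIntegrable_rpow' (a := -(1 / 2)) (b := -(1 / 2) + 1)
    (by norm_num : (-1 : ℝ) < -(1 / 2))).1.norm
  have b := ((intervalIntegral.intervalIntegrable_rpow' (a := 1 / 2) (b := -(-(1 / 2) + 1))
    (by norm_num : (-1 : ℝ) < -(1 / 2))).comp_mul_left (c := -1)).1.norm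
  simp only [div_neg, div_one, neg_neg] at b
  have c := ((a.add b).const_mul (exp (3 / 2))).lintegral_lt_top
  refine ⟨_, fun γ hγ n => le_trans ?_ (ENNReal.coe_toNNReal c.ne).ge⟩
  rw [← UnitAddCircle.lintegral_preimage (-(1 / 2))]
  refine setLIntegral_mono_ae' measurableSet_Ioc ?_
  filter_upwards [compl_mem_ae_iff.2 (measure_singleton (0 : ℝ))] with t h0 h1
  have h2 : |t| ≤ 1 / 2 := abs_le.2 ⟨h1.1.le, by linarith [h1.2]⟩
  have p := abs_pos.2 (show t ≠ 0 from h0)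
  have l : 0 ≤ log (1 / |t|) := log_nonneg (by rw [le_div_iff₀ p]; linarith)
  refine ENNReal.ofReal_le_ofReal ((exp_le_exp.2 (show _ ≤ 3 / 2 + log |t| * -(1 / 2) by
    have := mul_le_mul_of_nonneg_left (SS_le n h0 h2) (sq_nonneg γ)
    rw [one_div |t|, log_inv] at this l
    nlinarith)).trans ?_)
  rw [exp_add, ← rpow_def_of_pos p]
  refine mul_le_mul_of_nonneg_left ?_ (exp_pos _).le
  simp only [Pi.add_apply, norm_eq_abs, neg_mul, one_mul]
  rcases le_total 0 t with h | h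
  · rw [abs_of_nonneg h]; linarith [le_abs_self (t ^ (-(1 / 2) : ℝ)), abs_nonneg ((-t) ^ (-(1 / 2) : ℝ))]
  · rw [abs_of_nonpos h]; linarith [le_abs_self ((-t) ^ (-(1 / 2) : ℝ)), abs_nonneg (t ^ (-(1 / 2) : ℝ))]

theorem co_mul (k : ℕ) (z w : UnitAddCircle) :
    2 * (co k z * co k w) = co k (w - z) + co k (w + z) := by
  induction z using QuotientAddGroup.induction_on with
  | H s =>
  induction w using QuotientAddGroup.induction_on with
  | H t =>
    rw [← AddCircle.coe_sub, ← AddCircle.coe_add]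
    simp only [co_coe, mul_sub, mul_add, cos_sub, cos_add]; ring

theorem gauss (a b : ℝ) : ∫⁻ x, ENNReal.ofReal (exp (a * x - b)) ∂gaussianReal 0 1 =
    ENNReal.ofReal (exp (a ^ 2 / 2 - b)) := by
  simp only [exp_sub]
  rw [← ofReal_integral_eq_lintegral_ofReal ((integrable_exp_mul_gaussianReal a).div_const _)
    (Eventually.of_forall fun x => by positivity), integral_div]
  have := congrFun (mgf_id_gaussianReal (μ := 0) (v := 1)) a
  simp only [mgf, id, zero_mul, zero_add, NNReal.coe_one, one_mul] at this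
  rw [this]

noncomputable def GG (γ : ℝ) (k : ℕ) (z : UnitAddCircle) (x : ℝ) : ℝ≥0∞ :=
  ENNReal.ofReal (exp (γ * (co k z / √k) * x - (γ * (co k z / √k)) ^ 2 / 2))

theorem GG_meas (k : ℕ) : Measurable (Function.uncurry (GG γ k)) := by
  have := (co_cont k).measurable
  unfold GG Function.uncurry; fun_prop

omit mΩ in
theorem ZG {f : UnitAddCircle → ℝ} (hf : Continuous f) (h0 : ∀ z, 0 ≤ f z) (s : Finset ℕ) (ω : Ω) :
    Z ξ (GG γ) (fun z => ENNReal.ofReal (f z)) s ω =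
      ENNReal.ofReal (∫ z, f z * Dn γ (fun k => ξ k ω) s z) := by
  rw [ofReal_integral_eq_lintegral_ofReal (cint _ (hf.fun_mul (Dn_cont _ s)))
    (Eventually.of_forall fun z => mul_nonneg (h0 z) (exp_pos _).le)]
  refine lintegral_congr fun z => ?_
  rw [ENNReal.ofReal_mul (h0 z), Dn, exp_sum, ENNReal.ofReal_prod_of_nonneg fun k _ =>
    (exp_pos _).le]
  rfl

theorem IID.first (h : IID P ξ (gaussianReal 0 1)) (s : Finset ℕ) :
    ∫⁻ ω, Z ξ (GG γ) (fun _ => ENNReal.ofReal 1) s ω ∂P = 1 := by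
  rw [h.Z_int GG_meas measurable_const]
  simp [GG, gauss]

theorem joint (h : ∀ k, Measurable (ξ k)) {g : ℕ → UnitAddCircle → ℝ → ℝ≥0∞}
    {φ : UnitAddCircle → ℝ≥0∞} (hg : ∀ k, Measurable (Function.uncurry (g k))) (hφ : Measurable φ)
    (s : Finset ℕ) : Measurable (Function.uncurry fun ω (q : UnitAddCircle × UnitAddCircle) =>
      (φ q.1 * ∏ k ∈ s, g k q.1 (ξ k ω)) * (φ q.2 * ∏ k ∈ s, g k q.2 (ξ k ω))) :=
  ((hφ.comp measurable_snd.fst).mul (Finset.measurable_prod _ fun k _ =>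
    (hg k).comp (measurable_snd.fst.prodMk ((h k).comp measurable_fst)))).mul
  ((hφ.comp measurable_snd.snd).mul (Finset.measurable_prod _ fun k _ =>
    (hg k).comp (measurable_snd.snd.prodMk ((h k).comp measurable_fst))))

theorem IID.second (h : IID P ξ (gaussianReal 0 1)) {I : ℝ≥0∞} {n : ℕ}
    (hI : ∫⁻ z, ENNReal.ofReal (exp (2 * γ ^ 2 * SS n z)) ≤ I) {φ : UnitAddCircle → ℝ≥0∞}
    (hφ : Measurable φ) (h1 : ∀ z, φ z ≤ 1) {β : ℝ≥0∞} (h2 : ∫⁻ z, φ z ≤ β) {l : ℝ} (hl : 0 < l) :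
    ∫⁻ ω, Z ξ (GG γ) φ (Icc 1 n) ω ^ 2 ∂P ≤
      β * (ENNReal.ofReal l * β + ENNReal.ofReal l⁻¹ * (I + I)) := by
  have := h.ind.isProbabilityMeasure
  have m : ∀ k z, Measurable (GG γ k z) := fun k z => (GG_meas k).of_uncurry_left
  have m2 : ∀ ω, Measurable fun z => φ z * ∏ k ∈ Icc 1 n, GG γ k z (ξ k ω) := fun ω =>
    hφ.mul (Finset.measurable_prod _ fun k _ => (GG_meas k).of_uncurry_right)
  have mS := (SS_cont n).measurable
  simp only [sq, Z]
  simp only [← lintegral_prod_mul (m2 _).aemeasurable (m2 _).aemeasurable]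
  rw [lintegral_lintegral_swap]
  swap
  · exact (joint h.me GG_meas hφ _).aemeasurable
  refine (lintegral_mono (g := fun p => φ p.1 * (ENNReal.ofReal l * φ p.2 + ENNReal.ofReal l⁻¹ *
    (ENNReal.ofReal (exp (2 * γ ^ 2 * SS n (p.2 - p.1))) +
      ENNReal.ofReal (exp (2 * γ ^ 2 * SS n (p.2 + p.1)))))) fun p => ?_).trans ?_
  · obtain ⟨z, w⟩ := p
    simp only [mul_mul_mul_comm (φ z), ← prod_mul_distrib]
    rw [lintegral_const_mul _ (f := fun ω => ∏ k ∈ Icc 1 n, GG γ k z (ξ k ω) * GG γ k w (ξ k ω))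
      (Finset.measurable_prod _ fun k _ => ((m k z).mul (m k w)).comp (h.me k)),
      h.prod _ (f := fun k x => GG γ k z x * GG γ k w x) fun k => (m k z).mul (m k w), mul_assoc]
    refine mul_le_mul' le_rfl ?_
    have e : ∀ k : ℕ, ∫⁻ x, GG γ k z x * GG γ k w x ∂gaussianReal 0 1 =
        ENNReal.ofReal (exp (γ ^ 2 / 2 * (co k (w - z) / k + co k (w + z) / k))) := fun k => by
      simp only [GG, ← ENNReal.ofReal_mul (exp_pos _).le, ← exp_add, sub_add_sub_comm, ← add_mul,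
        gauss]
      rw [← add_div (co k _), ← co_mul]
      congr 2
      have hk := (sq_sqrt (Nat.cast_nonneg (α := ℝ) k)).symm
      generalize √(k : ℝ) = s at hk ⊢
      rw [hk]; ring
    simp only [e]
    rw [← ENNReal.ofReal_prod_of_nonneg fun k _ => (exp_pos _).le, ← exp_sum, ← mul_sum,
      sum_add_distrib, ← SS, ← SS]
    have e2 : exp (γ ^ 2 / 2 * (SS n (w - z) + SS n (w + z))) ≤ l + l⁻¹ *
        (exp (2 * γ ^ 2 * SS n (w - z)) + exp (2 * γ ^ 2 * SS n (w + z))) := by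
      rw [mul_add, exp_add, show 2 * γ ^ 2 * SS n (w - z) = (4 : ℕ) * (γ ^ 2 / 2 * SS n (w - z)) by
        ring, show 2 * γ ^ 2 * SS n (w + z) = (4 : ℕ) * (γ ^ 2 / 2 * SS n (w + z)) by ring,
        exp_nat_mul, exp_nat_mul, ← sub_le_iff_le_add', le_inv_mul_iff₀ hl]
      generalize exp (γ ^ 2 / 2 * SS n (w - z)) = u
      generalize exp (γ ^ 2 / 2 * SS n (w + z)) = v
      nlinarith [sq_nonneg (u * v - l), sq_nonneg (u ^ 2 - v ^ 2), sq_nonneg l, sq_nonneg (u * v)]
    refine (mul_le_mul' le_rfl (ENNReal.ofReal_le_ofReal e2)).trans ?_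
    rw [ENNReal.ofReal_add hl.le (by positivity), ENNReal.ofReal_mul (by positivity),
      ENNReal.ofReal_add (exp_pos _).le (exp_pos _).le, mul_add, mul_comm]
    exact add_le_add le_rfl (mul_le_of_le_one_left' (h1 w))
  rw [lintegral_prod _ (by fun_prop)]
  refine le_trans (lintegral_mono fun z => ?_) ((lintegral_mul_const _ hφ).trans_le
    (mul_le_mul' h2 le_rfl))
  simp only
  rw [lintegral_const_mul _ (by fun_prop), lintegral_add_left (by fun_prop),
    lintegral_const_mul _ hφ, lintegral_const_mul _ (by fun_prop), lintegral_add_left (by fun_prop),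
    lintegral_sub_right_eq_self (fun w => ENNReal.ofReal (exp (2 * γ ^ 2 * SS n w))),
    lintegral_add_right_eq_self (fun w => ENNReal.ofReal (exp (2 * γ ^ 2 * SS n w)))]
  gcongr

end Pool.Agent.H.MP_ab74d4_pr
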