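import Pool.Agent.H.MP_ab74d4_pr.D

set_option autoImplicit false
open MeasureTheory ProbabilityTheory Finset Filter Topology Real
open scoped ENNReal NNReal

namespace Pool.Agent.H.MP_ab74d4_pr

variable {Ω : Type*} [mΩ : MeasurableSpace Ω] {P : Measure Ω} {ξ : ℕ → Ω → ℝ} {ν : Measure ℝ}
  {γ : ℝ}

theorem Dn_tail (x : ℕ → ℝ) (N : ℕ) :
    Tendsto (fun n => ∫ z, Dn γ x (Icc 1 n) z) atTop (𝓝 0) ↔
      Tendsto (fun n => ∫ z, Dn γ x (Ioc N n) z) atTop (𝓝 0) := by
  obtain ⟨a, -, ha⟩ := isCompact_univ.exists_isMinOn Set.univ_nonempty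
    (Dn_cont (γ := γ) x (Ioc 0 N)).continuousOn
  obtain ⟨b, -, hb⟩ := isCompact_univ.exists_isMaxOn Set.univ_nonempty
    (Dn_cont (γ := γ) x (Ioc 0 N)).continuousOn
  have e : ∀ n, N ≤ n → ∀ z, Dn γ x (Icc 1 n) z = Dn γ x (Ioc 0 N) z * Dn γ x (Ioc N n) z :=
    fun n hn z => by
      rw [Dn, Dn, Dn, ← exp_add, sum_Ioc_consecutive _ N.zero_le hn]; rfl
  have p : ∀ s z, 0 < Dn γ x s z := fun s z => exp_pos _
  constructor <;> intro h
  · refine squeeze_zero' (Eventually.of_forall fun n => integral_nonneg fun z => (p _ z).le) ?_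
      (by simpa using h.const_mul (Dn γ x (Ioc 0 N) a)⁻¹)
    filter_upwards [eventually_ge_atTop N] with n hn
    rw [← integral_const_mul]
    refine integral_mono (cint _ (by fun_prop)) (cint _ (by fun_prop)) fun z => ?_
    simp only [le_inv_mul_iff₀ (p _ _), e n hn]
    exact mul_le_mul_of_nonneg_right (ha (Set.mem_univ z)) (p _ z).le
  · refine squeeze_zero' (Eventually.of_forall fun n => integral_nonneg fun z => (p _ z).le) ?_
      (by simpa using h.const_mul (Dn γ x (Ioc 0 N) b))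
    filter_upwards [eventually_ge_atTop N] with n hn
    rw [← integral_const_mul]
    refine integral_mono (cint _ (by fun_prop)) (cint _ (by fun_prop)) fun z => ?_
    simp only [e n hn]
    exact mul_le_mul_of_nonneg_right (hb (Set.mem_univ z)) (p _ z).le

omit mΩ in
theorem ZG1 (s : Finset ℕ) (ω : Ω) : (Z ξ (GG γ) (fun _ => ENNReal.ofReal 1) s ω).toReal =
    ∫ z, Dn γ (fun k => ξ k ω) s z := by
  rw [ZG continuous_const fun _ => zero_le_one, ENNReal.toReal_ofReal
    (integral_nonneg fun z => by simp [Dn, (exp_pos _).le])]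
  simp

theorem IID.nonzero (h : IID P ξ (gaussianReal 0 1)) (hγ : γ ^ 2 ≤ 1 / 4) :
    ∀ᵐ ω ∂P, ¬ Tendsto (fun n => ∫ z, Dn γ (fun k => ξ k ω) (Icc 1 n) z) atTop (𝓝 0) := by
  have := h.ind.isProbabilityMeasure
  have key : ∀ N, MeasurableSet[⨆ k ≥ N, MeasurableSpace.comap (ξ k) inferInstance]
      {ω | Tendsto (fun n => ∫ z, Dn γ (fun k => ξ k ω) (Icc 1 n) z) atTop (𝓝 0)} := fun N => by
    simp only [Dn_tail _ N]
    simp only [← ZG1]
    let m : MeasurableSpace Ω := ⨆ k ≥ N, MeasurableSpace.comap (ξ k) inferInstance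
    refine measurableSet_tendsto _ fun n => ?_
    refine (Z_meas _ (fun k hk => ?_) GG_meas measurable_const).ennreal_toReal
    exact (comap_measurable (ξ k)).mono (le_iSup₂_of_le k (mem_Ioc.1 hk).1.le le_rfl) le_rfl
  have a := measure_zero_or_one_of_measurableSet_limsup_atTop (fun k => (h.me k).comap_le)
    ((iIndepFun_iff_iIndep _ _ _).1 h.ind) (t := {ω | Tendsto (fun n =>
      ∫ z, Dn γ (fun k => ξ k ω) (Icc 1 n) z) atTop (𝓝 0)}) (by
    rw [limsup_eq_iInf_iSup_of_nat, MeasurableSpace.measurableSet_iInf]; exact key)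
  rw [ae_iff]
  simp only [not_not]
  refine a.resolve_right fun a => ?_
  rw [← mem_ae_iff_prob_eq_one ((iSup₂_le fun k _ => (h.me k).comap_le) _ (key 0))] at a
  obtain ⟨I, hI⟩ := SS_int
  obtain ⟨W, hW⟩ : ∃ W, W = fun n => Z ξ (GG γ) (fun _ => ENNReal.ofReal 1) (Icc 1 n) := ⟨_, rfl⟩
  have mW : ∀ n, Measurable (W n) := fun n =>
    hW ▸ Z_meas _ (fun k _ => h.me k) GG_meas measurable_const
  obtain ⟨M, hM⟩ : ∃ M : ℝ≥0, M = 2 * (1 + (I + I)) := ⟨_, rfl⟩
  have M0 : (M : ℝ≥0∞) ≠ 0 := by simp [hM]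
  have b1 : Tendsto (fun n => ∫⁻ ω, min (W n ω) M ∂P) atTop (𝓝 (∫⁻ _, 0 ∂P)) := by
    refine tendsto_lintegral_of_dominated_convergence (fun _ => M)
      (fun n => (mW n).min measurable_const) (fun n => Eventually.of_forall fun _ => min_le_right _ _)
      (by simp) ?_
    filter_upwards [a] with ω hω
    refine tendsto_of_tendsto_of_tendsto_of_le_of_le tendsto_const_nhds
      (by simpa using ENNReal.tendsto_ofReal hω) (fun _ => zero_le) fun n => (min_le_left _ _).trans ?_
    rw [hW]; simp only [ZG continuous_const fun _ => zero_le_one, one_mul]; rfl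
  rw [lintegral_zero] at b1
  obtain ⟨n, hn⟩ := (b1.eventually (gt_mem_nhds (by simp : (0 : ℝ≥0∞) < 2⁻¹))).exists
  have b2 := h.second (hI γ hγ n) (φ := fun _ => ENNReal.ofReal 1) measurable_const (by simp)
    (β := 1) (by simp) one_pos
  have b3 := h.first (γ := γ) (Icc 1 n)
  rw [show Z ξ (GG γ) (fun _ => ENNReal.ofReal 1) (Icc 1 n) = W n by rw [hW]] at b2 b3
  have b4 : ∫⁻ ω, W n ω ∂P ≤ ∫⁻ ω, min (W n ω) M + (M : ℝ≥0∞)⁻¹ * W n ω ^ 2 ∂P :=
    lintegral_mono fun ω => by
      rcases le_total (W n ω) M with h1 | h1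
      · rw [min_eq_left h1]; exact le_self_add
      · refine le_trans ?_ le_add_self
        rw [sq, ← mul_assoc]
        refine le_mul_of_one_le_left' ?_
        rw [← ENNReal.inv_mul_cancel M0 ENNReal.coe_ne_top]; gcongr
  rw [lintegral_add_left ((mW n).min measurable_const), lintegral_const_mul _ ((mW n).pow_const 2),
    b3] at b4
  have b5 : (M : ℝ≥0∞)⁻¹ * ∫⁻ ω, W n ω ^ 2 ∂P ≤ 2⁻¹ := by
    refine (mul_le_mul' le_rfl b2).trans_eq ?_
    simp only [hM, ENNReal.ofReal_one, inv_one, one_mul]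
    push_cast
    rw [ENNReal.mul_inv (by simp) (by simp), mul_assoc, ENNReal.inv_mul_cancel (by simp) (by simp),
      mul_one]
  have := b4.trans_lt (ENNReal.add_lt_add_of_lt_of_le (ne_top_of_le_ne_top (by simp) b5) hn b5)
  rw [ENNReal.inv_two_add_inv_two] at this
  exact this.false

noncomputable def bump (j i : ℕ) : C(UnitAddCircle, ℝ) :=
  ⟨fun z => max 0 (min 1 (3 - 16 ^ j * dist z ((i / 16 ^ j : ℝ) : UnitAddCircle))), by fun_prop⟩

theorem bump_mem (j i : ℕ) (z : UnitAddCircle) : 0 ≤ bump j i z ∧ bump j i z ≤ 1 :=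
  ⟨le_max_left _ _, max_le zero_le_one (min_le_left _ _)⟩

theorem bump_int (j i : ℕ) : ∫⁻ z, ENNReal.ofReal (bump j i z) ≤ ENNReal.ofReal (6 / 16 ^ j) := by
  refine (lintegral_mono (g := (Metric.closedBall ((i / 16 ^ j : ℝ) : UnitAddCircle)
    (3 / 16 ^ j)).indicator 1) fun z => ?_).trans ?_
  · by_cases hz : z ∈ Metric.closedBall ((i / 16 ^ j : ℝ) : UnitAddCircle) (3 / 16 ^ j)
    · simpa [hz] using (bump_mem j i z).2
    · rw [Metric.mem_closedBall, not_le, div_lt_iff₀' (by positivity)] at hz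
      simp only [bump, ContinuousMap.coe_mk]
      rw [max_eq_left ((min_le_right _ _).trans (by linarith))]; simp
  · rw [lintegral_indicator_one measurableSet_closedBall, AddCircle.volume_closedBall]
    exact ENNReal.ofReal_le_ofReal ((min_le_right _ _).trans_eq (by ring))

theorem dim_le {μ : Measure UnitAddCircle} [IsFiniteMeasure μ] {J : ℕ}
    (h : ∀ j ≥ J, ∀ i < 16 ^ j, (∫ z, bump j i z ∂μ) ^ 2 ≤ (1 / 2) ^ j) {A : Set UnitAddCircle}
    (hA : μ A ≠ 0) : (8 : ℝ≥0∞)⁻¹ ≤ dimH A := by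
  have k1 : ∀ s : Set UnitAddCircle, ∀ j ≥ J, Metric.diam s ≤ (1 / 16) ^ j →
      μ.real s ^ 8 ≤ (1 / 16) ^ j := fun s j hj hs => by
    rcases s.eq_empty_or_nonempty with rfl | ⟨x, hx⟩
    · simp
    obtain ⟨t, ⟨t0, t1⟩, rfl⟩ := x.eq_coe_Ico
    have p : (0 : ℝ) < 16 ^ j := by positivity
    have a1 := h j hj ⌊16 ^ j * t⌋₊ ((Nat.floor_lt (by positivity)).2 (by push_cast; nlinarith))
    have a2 : μ.real s ≤ ∫ z, bump j ⌊16 ^ j * t⌋₊ z ∂μ := by
      refine (measureReal_mono (subset_closure (s := s))).trans ?_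
      rw [← integral_indicator_one isClosed_closure.measurableSet]
      refine integral_mono ((integrable_const 1).indicator isClosed_closure.measurableSet)
        (cint _ (bump _ _).continuous) fun z => ?_
      by_cases hz : z ∈ closure s
      swap
      · simpa [hz] using (bump_mem _ _ z).1
      have d1 := Metric.dist_le_diam_of_mem Metric.isBounded_of_compactSpace hz (subset_closure hx)
      rw [Metric.diam_closure] at d1
      have d2 : dist (t : UnitAddCircle) ((⌊16 ^ j * t⌋₊ / 16 ^ j : ℝ) : UnitAddCircle) ≤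
          1 / 16 ^ j := by
        rw [dist_eq_norm, ← AddCircle.coe_sub]
        refine QuotientAddGroup.norm_mk_le_norm.trans ?_
        rw [norm_eq_abs, sub_div' p.ne', abs_div, abs_of_pos p, mul_comm]
        have := Nat.floor_le (by positivity : 0 ≤ 16 ^ j * t)
        have := Nat.lt_floor_add_one (16 ^ j * t)
        gcongr
        rw [abs_le]; constructor <;> linarith
      have d3 := (dist_triangle z _ _).trans (add_le_add (d1.trans hs) d2)
      rw [one_div_pow, ← add_div, le_div_iff₀' p] at d3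
      simp only [Set.indicator_of_mem hz, bump, ContinuousMap.coe_mk, Pi.one_apply]
      exact le_max_of_le_right (le_min le_rfl (by linarith))
    calc μ.real s ^ 8 = (μ.real s ^ 2) ^ 4 := by ring
      _ ≤ ((1 / 2) ^ j) ^ 4 := pow_le_pow_left₀ (sq_nonneg _)
        ((pow_le_pow_left₀ measureReal_nonneg a2 2).trans a1) 4
      _ = _ := by rw [← pow_mul, mul_comm, pow_mul]; norm_num
  have k2 := Measure.le_hausdorffMeasure (8⁻¹ : ℝ≥0) ((2 : ℝ≥0∞)⁻¹ • μ)
    (ENNReal.ofReal ((1 / 16) ^ J)) (by simp) fun s hs => by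
    have d0 := Metric.diam_nonneg (s := s)
    have e : Metric.ediam s = ENNReal.ofReal (Metric.diam s) := (ENNReal.ofReal_toReal
      (ne_top_of_le_ne_top ENNReal.ofReal_ne_top hs)).symm
    rw [e, ENNReal.ofReal_le_ofReal_iff (by positivity)] at hs
    have a1 : μ.real s ^ 8 ≤ 16 * Metric.diam s := by
      rcases d0.eq_or_lt with h0 | h0
      · rw [← h0, mul_zero]
        refine ge_of_tendsto (tendsto_pow_atTop_nhds_zero_of_lt_one (r := (1 / 16 : ℝ))
          (by norm_num) (by norm_num)) ?_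
        filter_upwards [eventually_ge_atTop J] with j hj using k1 s j hj (by rw [← h0]; positivity)
      obtain ⟨j, j1, j2⟩ := exists_nat_pow_near_of_lt_one h0 (hs.trans (pow_le_one₀ (by norm_num)
        (by norm_num))) (by norm_num : (0 : ℝ) < 1 / 16) (by norm_num)
      have := k1 s j (Nat.lt_succ_iff.1 ((pow_lt_pow_iff_right_of_lt_one₀ (by norm_num)
        (by norm_num)).1 (j1.trans_le hs))) j2
      rw [pow_succ] at j1
      linarith
    rw [e, ENNReal.ofReal_rpow_of_nonneg d0 (by positivity), Measure.smul_apply, smul_eq_mul,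
      ← ofReal_measureReal, ← ENNReal.ofReal_ofNat, ← ENNReal.ofReal_inv_of_pos two_pos,
      ← ENNReal.ofReal_mul (by positivity)]
    refine ENNReal.ofReal_le_ofReal ?_
    push_cast
    rw [le_rpow_inv_iff_of_pos (by positivity) d0 (by norm_num), rpow_ofNat, mul_pow]
    linarith
  have := le_dimH_of_hausdorffMeasure_ne_zero (s := A) (d := 8⁻¹) fun h0 => hA (by
    simpa using (k2 A).trans_eq h0)
  simpa using this

theorem IID.small (h : IID P ξ (gaussianReal 0 1)) (hγ : γ ^ 2 ≤ 1 / 4) :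
    ∀ᵐ ω ∂P, ∀ᶠ j in atTop, ∀ i < 16 ^ j, ∀ c, Tendsto (fun n =>
      ∫ z, bump j i z * Dn γ (fun k => ξ k ω) (Icc 1 n) z) atTop (𝓝 c) → c ^ 2 ≤ (1 / 2) ^ j := by
  obtain ⟨I, hI⟩ := SS_int
  obtain ⟨W, hW⟩ : ∃ W : ℕ → ℕ → Ω → ℝ≥0∞, W = fun j i ω => liminf (fun n =>
    Z ξ (GG γ) (fun z => ENNReal.ofReal (bump j i z)) (Icc 1 n) ω ^ 2) atTop := ⟨_, rfl⟩
  have m : ∀ j i n, Measurable fun ω =>
      Z ξ (GG γ) (fun z => ENNReal.ofReal (bump j i z)) (Icc 1 n) ω ^ 2 := fun j i n =>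
    (Z_meas _ (fun k _ => h.me k) GG_meas (by fun_prop)).pow_const 2
  have a1 : ∀ j i, P {ω | ENNReal.ofReal ((1 / 2) ^ j) ≤ W j i ω} ≤
      ENNReal.ofReal ((36 + 12 * I) * (1 / 2) ^ j / 16 ^ j) := fun j i => by
    have b1 := (lintegral_liminf_le (μ := P) (u := atTop) (m j i)).trans (liminf_le_of_frequently_le'
      (Frequently.of_forall fun n => h.second (hI γ hγ n) (by fun_prop)
        (fun z => by simpa using (bump_mem j i z).2) (bump_int j i) (by positivity : (0 : ℝ) < 4 ^ j)))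
    have b2 := (mul_meas_ge_le_lintegral (μ := P) (Measurable.liminf (m j i))
      (ENNReal.ofReal ((1 / 2) ^ j))).trans b1
    rw [hW]
    refine (ENNReal.mul_le_mul_iff_right (by simp) ENNReal.ofReal_ne_top).1 (b2.trans_eq ?_)
    rw [← ENNReal.ofReal_coe_nnreal, ← ENNReal.ofReal_add I.coe_nonneg I.coe_nonneg,
      ← ENNReal.ofReal_mul (by positivity), ← ENNReal.ofReal_mul (by positivity),
      ← ENNReal.ofReal_add (by positivity) (by positivity), ← ENNReal.ofReal_mul (by positivity),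
      ← ENNReal.ofReal_mul (by positivity)]
    congr 1
    rw [show (16 : ℝ) = 2 ^ 4 by norm_num, show (4 : ℝ) = 2 ^ 2 by norm_num, one_div_pow,
      pow_right_comm _ 4, pow_right_comm _ 2]
    field_simp; ring
  have a2 := ae_eventually_notMem (μ := P) (s := fun j => ⋃ i ∈ range (16 ^ j),
    {ω | ENNReal.ofReal ((1 / 2) ^ j) ≤ W j i ω}) (by
    have s := summable_geometric_two.mul_left (36 + 12 * (I : ℝ))
    refine ne_top_of_le_ne_top (ENNReal.ofReal_ne_top (r := ∑' j, (36 + 12 * I) * (1 / 2) ^ j)) ?_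
    rw [ENNReal.ofReal_tsum_of_nonneg (fun j => by positivity) s]
    refine ENNReal.tsum_le_tsum fun j => (measure_biUnion_finset_le _ _).trans
      ((sum_le_card_nsmul _ _ _ fun i _ => a1 j i).trans_eq ?_)
    rw [card_range, nsmul_eq_mul, ← ENNReal.ofReal_natCast, ← ENNReal.ofReal_mul (by positivity)]
    congr 1; push_cast; field_simp)
  filter_upwards [a2] with ω hω
  filter_upwards [hω] with j hj i hi c hc
  simp only [Set.mem_iUnion, mem_range, Set.mem_ofPred_eq, not_exists, not_le] at hj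
  have b1 := (ENNReal.tendsto_ofReal (hc.pow 2)).congr (f₂ := fun n =>
    Z ξ (GG γ) (fun z => ENNReal.ofReal (bump j i z)) (Icc 1 n) ω ^ 2) fun n => by
      rw [ZG (bump j i).continuous fun z => (bump_mem j i z).1, ENNReal.ofReal_pow]
      exact integral_nonneg fun z => mul_nonneg (bump_mem j i z).1 (exp_pos _).le
  have b2 := hj i hi
  rw [hW] at b2
  simp only [b1.liminf_eq] at b2
  exact ((ENNReal.ofReal_lt_ofReal_iff (by positivity)).1 b2).le

theorem meas_of {m : Ω → Measure UnitAddCircle} [∀ ω, IsFiniteMeasure (m ω)]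
    (h : ∀ f : C(UnitAddCircle, ℝ), Measurable fun ω => ∫ z, f z ∂m ω) : Measurable m := by
  have k : ∀ F : Set UnitAddCircle, IsClosed F → Measurable fun ω => m ω F := fun F hF => by
    refine measurable_of_tendsto_metrizable (f := fun n ω => ∫⁻ z, hF.apprSeq n z ∂m ω)
      (fun n => ?_) (tendsto_pi_nhds.2 fun ω =>
        HasOuterApproxClosed.tendsto_lintegral_apprSeq hF (m ω))
    simp only [fun ω => lintegral_coe_eq_integral (μ := m ω) (hF.apprSeq n) (cint _ (by fun_prop))]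
    exact (h ⟨fun z => hF.apprSeq n z, by fun_prop⟩).ennreal_ofReal
  exact Measurable.measure_of_isPiSystem (BorelSpace.measurable_eq.trans
    borel_eq_generateFrom_isClosed) isPiSystem_isClosed k (k _ isClosed_univ)

theorem IID.limit (h : IID P ξ ν) (hν : Law ν) (hγ : 0 < γ) : ∃ m : Ω → Measure UnitAddCircle,
    (∀ ω, IsFiniteMeasure (m ω)) ∧ Measurable m ∧ ∀ᵐ ω ∂P, ∀ f : C(UnitAddCircle, ℝ),
      Tendsto (fun n => ∫ z, f z * Dn γ (fun k => ξ k ω) (Icc 1 n) z) atTop (𝓝 (∫ z, f z ∂m ω)) := by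
  obtain ⟨N, n1, n2, n3⟩ := exists_measurable_superset_of_null (h.main hν hγ)
  have : ∀ ω, ∃ m : Measure UnitAddCircle, IsFiniteMeasure m ∧ ∀ f : C(UnitAddCircle, ℝ), Tendsto
      (fun n => Nᶜ.indicator (fun ω => ∫ z, f z * Dn γ (fun k => ξ k ω) (Icc 1 n) z) ω) atTop
      (𝓝 (∫ z, f z ∂m)) := fun ω => by
    by_cases hω : ω ∈ N
    · exact ⟨0, inferInstance, fun f => by simp [hω]⟩
    obtain ⟨μ, H, m1, m2, m3, -, m4⟩ := not_not.1 fun h => hω (n1 h)
    exact ⟨_, fin_wd μ m2, fun f => by simpa [hω, int_wd μ m2 m3] using m4 f⟩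
  choose m m1 m2 using this
  refine ⟨m, m1, meas_of fun f => measurable_of_tendsto_metrizable (fun n => ?_)
    (tendsto_pi_nhds.2 fun ω => m2 ω f), ?_⟩
  · refine Measurable.indicator (StronglyMeasurable.measurable
      (StronglyMeasurable.integral_prod_right (Measurable.stronglyMeasurable ?_))) n2.compl
    have a1 := fun k => (co_cont k).measurable
    have a2 := h.me
    unfold Dn Function.uncurry
    fun_prop
  · filter_upwards [compl_mem_ae_iff.2 n3] with ω hω f
    simpa [Set.indicator_of_mem hω] using m2 ω f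

theorem IID.var (h : IID P ξ ν) (hν : Law ν) (n : ℕ) (z : UnitAddCircle) :
    Var[fun ω => ∑ k ∈ Icc 1 n, co k z / √k * ξ k ω; P] = ∑ k ∈ Icc 1 n, (co k z / √k) ^ 2 := by
  have := IndepFun.variance_sum (μ := P) (X := fun k ω => co k z / √k * ξ k ω) (s := Icc 1 n)
    (fun k _ => MemLp.const_mul ((memLp_map_measure_iff aestronglyMeasurable_id
      (h.me k).aemeasurable).1 (h.law k ▸ hν.l2)) _) fun k _ l _ hkl =>
      (h.ind.indepFun hkl).comp (measurable_const_mul _) (measurable_const_mul _)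
  rw [← sum_fn, this]
  refine sum_congr rfl fun k _ => ?_
  rw [variance_const_mul, ← variance_id_map (h.me k).aemeasurable, h.law k, hν.m2, mul_one]

theorem law_gauss : Law (gaussianReal 0 1) :=
  ⟨inferInstance, memLp_id_gaussianReal' 2 (by simp), integral_id_gaussianReal, by simp⟩

end Pool.Agent.H.MP_ab74d4_pr
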